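import Pool.Agent.Helper33.HU.Goals

/-! HU packet ML: `FF x a v * y^a` is in the lower span. -/

set_option autoImplicit false

namespace Pool.Agent.Helper8.HU

open Finset Pool.Agent.Helper33.HU

theorem ym_mul_prod {n : ℕ} {D : Type} [CommRing D] (y : Fin n → D) (c : Fin n → ℕ)
    (L : Finset (Fin n)) :
    ym y c * ∏ i ∈ L, y i = ym y (fun i => c i + if i ∈ L then 1 else 0) := by
  unfold ym
  have h : ∏ i ∈ L, y i = ∏ i, y i ^ (if i ∈ L then 1 else 0) := by
    rw [← Finset.prod_subset (Finset.subset_univ L)]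
    · refine Finset.prod_congr rfl fun i hi => ?_
      rw [if_pos hi, pow_one]
    · intro i _ hi
      rw [if_neg hi, pow_zero]
  rw [h, ← Finset.prod_mul_distrib]
  refine Finset.prod_congr rfl fun i _ => ?_
  rw [pow_add]

theorem cx_mem {n : ℕ} {D : Type} [CommRing D] [Algebra ℂ D] (x : Fin n → D)
    (T L : Finset (Fin n)) : ∑ i ∈ L, ∏ t ∈ T, (x i - x t) ∈ Xalg x := by
  have hx : ∀ i, x i ∈ Xalg x := fun i => Algebra.subset_adjoin ⟨i, rfl⟩
  exact Subalgebra.sum_mem _ fun i _ => Subalgebra.prod_mem _ fun t _ =>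
    Subalgebra.sub_mem _ (hx i) (hx t)

theorem gML (hPS : G_PS) (hEE : G_EE) (hPHI : G_PHI) : G_ML := by
  intro n D _ _ x y hI a v
  by_cases hv : a v = 0
  · have h0 : FF x a v = 0 := by
      have h := (hPS n D x y hI (TT a v)).2
      rw [← h]
      unfold FF
      simp only [if_pos hv]
      refine Finset.sum_subset (Finset.subset_univ _) ?_
      intro i _ hi
      have hi2 : i ∈ TT a v := by
        have h1 : ¬ pos a i ≤ pos a v := by
          intro hh
          exact hi (Finset.mem_filter.mpr ⟨Finset.mem_univ _, hh⟩)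
        refine Finset.mem_filter.mpr ⟨Finset.mem_univ _, not_le.mp h1, ?_⟩
        unfold pos
        rw [hv]
        have h2 : ((i : ℕ) : ℤ) < n := by exact_mod_cast i.2
        have h3 : (0 : ℤ) ≤ (n : ℤ) * (a i : ℤ) := by positivity
        have h4 : (0 : ℤ) ≤ ((v : ℕ) : ℤ) := by positivity
        push_cast
        linarith
      rw [Finset.prod_eq_zero hi2 (sub_self _), mul_zero]
    rw [h0, zero_mul]
    exact Submodule.zero_mem _
  · obtain ⟨h1, h2⟩ := hPHI n a v hv
    have hST : SS a v ⊆ (TT a v)ᶜ := by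
      intro i hi
      rw [Finset.mem_compl]
      intro hi2
      have e1 := (Finset.mem_filter.mp hi).2
      have e2 := (Finset.mem_filter.mp hi2).2.1
      exact absurd e1 (not_le.mpr e2)
    have hvS : v ∈ SS a v := Finset.mem_filter.mpr ⟨Finset.mem_univ _, le_refl _⟩
    have hS1 : 1 ≤ (SS a v).card := Finset.card_pos.mpr ⟨v, hvS⟩
    have hE := hEE n D x y hI (TT a v) (SS a v).card hS1
    have hmem : SS a v ∈ ((TT a v)ᶜ).powersetCard (SS a v).card :=
      Finset.mem_powersetCard.mpr ⟨hST, rfl⟩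
    rw [← Finset.add_sum_erase _ _ hmem] at hE
    have hFF : FF x a v = ∑ i ∈ SS a v, ∏ t ∈ TT a v, (x i - x t) := by
      unfold FF
      refine Finset.sum_congr rfl fun i _ => ?_
      rw [if_neg hv, one_mul]
    have hya : ym y a = ym y (fun i => a i - (if i ∈ SS a v then 1 else 0))
        * ∏ i ∈ SS a v, y i := by
      rw [ym_mul_prod]
      congr 1
      funext i
      by_cases hi : i ∈ SS a v
      · rw [if_pos hi]
        have := h1 i hi
        omega
      · rw [if_neg hi]
        omega
    have hmain : FF x a v * ym y a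
        = - ∑ L ∈ (((TT a v)ᶜ).powersetCard (SS a v).card).erase (SS a v),
          (∑ i ∈ L, ∏ t ∈ TT a v, (x i - x t)) *
            ym y (fun i => a i - (if i ∈ SS a v then 1 else 0) + (if i ∈ L then 1 else 0)) := by
      have e3 : ∀ L : Finset (Fin n), (∑ i ∈ L, ∏ t ∈ TT a v, (x i - x t)) *
            ym y (fun i => a i - (if i ∈ SS a v then 1 else 0) + (if i ∈ L then 1 else 0))
          = ym y (fun i => a i - (if i ∈ SS a v then 1 else 0)) *
            ((∑ i ∈ L, ∏ t ∈ TT a v, (x i - x t)) * ∏ i ∈ L, y i) := by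
        intro L
        rw [← ym_mul_prod]
        ring
      rw [Finset.sum_congr rfl fun L _ => e3 L, ← Finset.mul_sum, hFF, hya]
      linear_combination ym y (fun i => a i - (if i ∈ SS a v then 1 else 0)) * hE
    rw [hmain]
    refine Submodule.neg_mem _ (Submodule.sum_mem _ fun L hL => ?_)
    have hL2 := Finset.mem_erase.mp hL
    have hb := h2 L hL2.2 hL2.1
    exact Submodule.smul_mem (low x y (Ph a))
      (⟨∑ i ∈ L, ∏ t ∈ TT a v, (x i - x t), cx_mem x (TT a v) L⟩ : Xalg x)
      (Submodule.subset_span ⟨_, hb, rfl⟩)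

end Pool.Agent.Helper8.HU
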